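import Mathlib

/-! The algebraic core: the commutation equations force `X = 0`. -/

set_option autoImplicit false

namespace Pool.Agent.Lib.MP_3aeeeb_co

section
variable (c0 c1 c2 e0 e1 e2 e3 f0 f2 : ℝ)

/-- auxiliary linear form -/
def Y0 (w0 w2 : ℝ) : ℝ := c0 * c1 * (f0 * w0 + f2 * w2)
/-- auxiliary linear form -/
def Y1 (w1 w2 w3 : ℝ) : ℝ := c1 * (c0 * f0 * w1 + f2 * (c1 * w1 + (e2 - e0) * w2 + c2 * w3))
/-- auxiliary linear form -/
def Y2 (w0 w1 w2 w3 : ℝ) : ℝ :=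
  c0 * c1 * f0 * w2 + f2 * (c1 * (c0 * w0 + (e1 - e0) * w1 + c1 * w2) +
    (e2 - e1) * (c1 * w1 + (e2 - e0) * w2 + c2 * w3) + c2 * (c2 * w2 + (e3 - e0) * w3) -
      c0 ^ 2 * w2)
/-- auxiliary linear form -/
def Y3 (w1 w2 w3 : ℝ) : ℝ :=
  c0 * c1 * f0 * w3 + f2 * (c2 * (c1 * w1 + (e2 - e0) * w2 + c2 * w3) +
    (e3 - e1) * (c2 * w2 + (e3 - e0) * w3) - c0 ^ 2 * w3)

end

/-- The commutation equations for the path `0 - 1 - ... - 7` plus the edge `{3, 6}`. -/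
theorem core (d0 d1 d2 d3 e0 e1 e2 e3 b0 b1 b2 f0 f2 c0 c1 c2 : ℝ)
    (hb0 : b0 ≠ 0) (hb1 : b1 ≠ 0) (hb2 : b2 ≠ 0) (hf2 : f2 ≠ 0)
    (hc1 : c1 ≠ 0) (hc2 : c2 ≠ 0)
    (x02 x03 x04 x05 x06 x07 x13 x14 x15 x16 x17 x24 x25 x26 x27 x35 x37 x46 x47 x57 : ℝ)
    (E01 : 0 = b1 * x02)
    (E02 : d0 * x02 = d2 * x02 + b2 * x03)
    (E03 : d0 * x03 + b0 * x13 = b2 * x02 + d3 * x03 + f0 * x04 + f2 * x06)
    (E04 : d0 * x04 + b0 * x14 = f0 * x03 + e0 * x04 + c0 * x05)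
    (E05 : d0 * x05 + b0 * x15 = c0 * x04 + e1 * x05 + c1 * x06)
    (E06 : d0 * x06 + b0 * x16 = f2 * x03 + c1 * x05 + e2 * x06 + c2 * x07)
    (E07 : d0 * x07 + b0 * x17 = c2 * x06 + e3 * x07)
    (E12 : b0 * x02 = b2 * x13)
    (E13 : b0 * x03 + d1 * x13 = d3 * x13 + f0 * x14 + f2 * x16)
    (E14 : b0 * x04 + d1 * x14 + b1 * x24 = f0 * x13 + e0 * x14 + c0 * x15)
    (E15 : b0 * x05 + d1 * x15 + b1 * x25 = c0 * x14 + e1 * x15 + c1 * x16)
    (E16 : b0 * x06 + d1 * x16 + b1 * x26 = f2 * x13 + c1 * x15 + e2 * x16 + c2 * x17)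
    (E17 : b0 * x07 + d1 * x17 + b1 * x27 = c2 * x16 + e3 * x17)
    (E23 : b1 * x13 = f0 * x24 + f2 * x26)
    (E24 : b1 * x14 + d2 * x24 = e0 * x24 + c0 * x25)
    (E25 : b1 * x15 + d2 * x25 + b2 * x35 = c0 * x24 + e1 * x25 + c1 * x26)
    (E26 : b1 * x16 + d2 * x26 = c1 * x25 + e2 * x26 + c2 * x27)
    (E27 : b1 * x17 + d2 * x27 + b2 * x37 = c2 * x26 + e3 * x27)
    (E34 : b2 * x24 + f2 * x46 = c0 * x35)
    (E35 : b2 * x25 + d3 * x35 = e1 * x35)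
    (E36 : b2 * x26 + f0 * x46 = c1 * x35 + c2 * x37)
    (E37 : b2 * x27 + d3 * x37 + f0 * x47 = e3 * x37)
    (E45 : f0 * x35 = c1 * x46)
    (E46 : e0 * x46 = e2 * x46 + c2 * x47)
    (E56 : c0 * x46 = f2 * x35 + c2 * x57)
    (E67 : f2 * x37 + c1 * x57 = 0) :
    x02 = 0 ∧ x03 = 0 ∧ x04 = 0 ∧ x05 = 0 ∧ x06 = 0 ∧ x07 = 0 ∧ x13 = 0 ∧ x14 = 0 ∧ x15 = 0 ∧
      x16 = 0 ∧ x17 = 0 ∧ x24 = 0 ∧ x25 = 0 ∧ x26 = 0 ∧ x27 = 0 ∧ x35 = 0 ∧ x37 = 0 ∧ x46 = 0 ∧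
      x47 = 0 ∧ x57 = 0 := by
  have z02 : x02 = 0 := by
    have : b1 * x02 = 0 := E01.symm
    exact (mul_eq_zero.1 this).resolve_left hb1
  subst z02
  have z03 : x03 = 0 := by
    have : b2 * x03 = 0 := by linear_combination -E02
    exact (mul_eq_zero.1 this).resolve_left hb2
  subst z03
  have z13 : x13 = 0 := by
    have : b2 * x13 = 0 := by linear_combination -E12
    exact (mul_eq_zero.1 this).resolve_left hb2
  subst z13
  have F0 : f0 * x04 + f2 * x06 = 0 := by linear_combination -E03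
  have F1 : f0 * x14 + f2 * x16 = 0 := by linear_combination -E13
  have F2 : f0 * x24 + f2 * x26 = 0 := by linear_combination -E23
  -- first row
  have hY10 : Y1 c0 c1 c2 e0 e2 f0 f2 x05 x06 x07 = 0 := by
    rw [Y1]
    linear_combination c1 * (-f0 * E04 - f2 * E06 + (d0 - e0) * F0 + b0 * F1)
  have hY11 : Y1 c0 c1 c2 e0 e2 f0 f2 x15 x16 x17 = 0 := by
    rw [Y1]
    linear_combination c1 * (-f0 * E14 - f2 * E16 + b0 * F0 + (d1 - e0) * F1 + b1 * F2)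
  have hY12 : Y1 c0 c1 c2 e0 e2 f0 f2 x25 x26 x27 = 0 := by
    rw [Y1]
    linear_combination c1 * (-f0 * E24 - f2 * E26 + b1 * F1 + (d2 - e0) * F2)
  -- identities
  have r1 : ∀ w0 w1 w2 w3 : ℝ, c0 * Y0 c0 c1 f0 f2 w0 w2 + e1 * Y1 c0 c1 c2 e0 e2 f0 f2 w1 w2 w3 +
      c1 * Y2 c0 c1 c2 e0 e1 e2 e3 f0 f2 w0 w1 w2 w3 =
      Y1 c0 c1 c2 e0 e2 f0 f2 (c0 * w0 + e1 * w1 + c1 * w2) (c1 * w1 + e2 * w2 + c2 * w3)
        (c2 * w2 + e3 * w3) := by
    intro w0 w1 w2 w3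
    simp only [Y0, Y1, Y2]
    ring
  have r2 : ∀ w0 w1 w2 w3 : ℝ, c1 * Y1 c0 c1 c2 e0 e2 f0 f2 w1 w2 w3 +
      e2 * Y2 c0 c1 c2 e0 e1 e2 e3 f0 f2 w0 w1 w2 w3 + c2 * Y3 c0 c1 c2 e0 e1 e2 e3 f0 f2 w1 w2 w3 =
      Y2 c0 c1 c2 e0 e1 e2 e3 f0 f2 (e0 * w0 + c0 * w1) (c0 * w0 + e1 * w1 + c1 * w2)
        (c1 * w1 + e2 * w2 + c2 * w3) (c2 * w2 + e3 * w3) := by
    intro w0 w1 w2 w3
    simp only [Y1, Y2, Y3]
    ring
  have r3 : ∀ w0 w1 w2 w3 : ℝ, c2 * Y2 c0 c1 c2 e0 e1 e2 e3 f0 f2 w0 w1 w2 w3 +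
      e3 * Y3 c0 c1 c2 e0 e1 e2 e3 f0 f2 w1 w2 w3 =
      Y3 c0 c1 c2 e0 e1 e2 e3 f0 f2 (c0 * w0 + e1 * w1 + c1 * w2)
        (c1 * w1 + e2 * w2 + c2 * w3) (c2 * w2 + e3 * w3) := by
    intro w0 w1 w2 w3
    simp only [Y2, Y3]
    ring
  -- substitute the recurrences
  have s04 : e0 * x04 + c0 * x05 = d0 * x04 + b0 * x14 := by linear_combination -E04
  have s14 : e0 * x14 + c0 * x15 = b0 * x04 + d1 * x14 + b1 * x24 := by linear_combination -E14
  have s05 := E05.symm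
  have s06 : c1 * x05 + e2 * x06 + c2 * x07 = d0 * x06 + b0 * x16 := by linear_combination -E06
  have s07 := E07.symm
  have s15 := E15.symm
  have s16 : c1 * x15 + e2 * x16 + c2 * x17 = b0 * x06 + d1 * x16 + b1 * x26 := by
    linear_combination -E16
  have s17 := E17.symm
  have s25 := E25.symm
  have s26 : c1 * x25 + e2 * x26 + c2 * x27 = b1 * x16 + d2 * x26 := by linear_combination -E26
  have s27 := E27.symm
  have hY20 : Y2 c0 c1 c2 e0 e1 e2 e3 f0 f2 x04 x05 x06 x07 = 0 := by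
    have h := r1 x04 x05 x06 x07
    rw [s05, s06, s07] at h
    have h0 : Y0 c0 c1 f0 f2 x04 x06 = 0 := by rw [Y0, F0, mul_zero]
    have h2 : Y1 c0 c1 c2 e0 e2 f0 f2 (d0 * x05 + b0 * x15) (d0 * x06 + b0 * x16)
        (d0 * x07 + b0 * x17) = d0 * Y1 c0 c1 c2 e0 e2 f0 f2 x05 x06 x07 +
          b0 * Y1 c0 c1 c2 e0 e2 f0 f2 x15 x16 x17 := by
      simp only [Y1]
      ring
    rw [h2, h0, hY10, hY11] at h
    have : c1 * Y2 c0 c1 c2 e0 e1 e2 e3 f0 f2 x04 x05 x06 x07 = 0 := by linear_combination h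
    exact (mul_eq_zero.1 this).resolve_left hc1
  have hY21 : Y2 c0 c1 c2 e0 e1 e2 e3 f0 f2 x14 x15 x16 x17 = 0 := by
    have h := r1 x14 x15 x16 x17
    rw [s15, s16, s17] at h
    have h0 : Y0 c0 c1 f0 f2 x14 x16 = 0 := by rw [Y0, F1, mul_zero]
    have h2 : Y1 c0 c1 c2 e0 e2 f0 f2 (b0 * x05 + d1 * x15 + b1 * x25)
        (b0 * x06 + d1 * x16 + b1 * x26) (b0 * x07 + d1 * x17 + b1 * x27) =
          b0 * Y1 c0 c1 c2 e0 e2 f0 f2 x05 x06 x07 + d1 * Y1 c0 c1 c2 e0 e2 f0 f2 x15 x16 x17 +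
          b1 * Y1 c0 c1 c2 e0 e2 f0 f2 x25 x26 x27 := by
      simp only [Y1]
      ring
    rw [h2, h0, hY10, hY11, hY12] at h
    have : c1 * Y2 c0 c1 c2 e0 e1 e2 e3 f0 f2 x14 x15 x16 x17 = 0 := by linear_combination h
    exact (mul_eq_zero.1 this).resolve_left hc1
  have hY30 : Y3 c0 c1 c2 e0 e1 e2 e3 f0 f2 x05 x06 x07 = 0 := by
    have h := r2 x04 x05 x06 x07
    rw [s04, s05, s06, s07] at h
    have h2 : Y2 c0 c1 c2 e0 e1 e2 e3 f0 f2 (d0 * x04 + b0 * x14) (d0 * x05 + b0 * x15)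
        (d0 * x06 + b0 * x16) (d0 * x07 + b0 * x17) =
          d0 * Y2 c0 c1 c2 e0 e1 e2 e3 f0 f2 x04 x05 x06 x07 +
          b0 * Y2 c0 c1 c2 e0 e1 e2 e3 f0 f2 x14 x15 x16 x17 := by
      simp only [Y2]
      ring
    rw [h2, hY10, hY20, hY21] at h
    have : c2 * Y3 c0 c1 c2 e0 e1 e2 e3 f0 f2 x05 x06 x07 = 0 := by linear_combination h
    exact (mul_eq_zero.1 this).resolve_left hc2
  have hY31 : Y3 c0 c1 c2 e0 e1 e2 e3 f0 f2 x15 x16 x17 = 0 := by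
    have h := r3 x04 x05 x06 x07
    rw [s05, s06, s07] at h
    have h2 : Y3 c0 c1 c2 e0 e1 e2 e3 f0 f2 (d0 * x05 + b0 * x15)
        (d0 * x06 + b0 * x16) (d0 * x07 + b0 * x17) =
          d0 * Y3 c0 c1 c2 e0 e1 e2 e3 f0 f2 x05 x06 x07 +
          b0 * Y3 c0 c1 c2 e0 e1 e2 e3 f0 f2 x15 x16 x17 := by
      simp only [Y3]
      ring
    rw [h2, hY20, hY30] at h
    have : b0 * Y3 c0 c1 c2 e0 e1 e2 e3 f0 f2 x15 x16 x17 = 0 := by linear_combination -h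
    exact (mul_eq_zero.1 this).resolve_left hb0
  have hY22 : Y2 c0 c1 c2 e0 e1 e2 e3 f0 f2 x24 x25 x26 x27 = 0 := by
    have h := r2 x14 x15 x16 x17
    rw [s14, s15, s16, s17] at h
    have h2 : Y2 c0 c1 c2 e0 e1 e2 e3 f0 f2 (b0 * x04 + d1 * x14 + b1 * x24)
        (b0 * x05 + d1 * x15 + b1 * x25) (b0 * x06 + d1 * x16 + b1 * x26)
        (b0 * x07 + d1 * x17 + b1 * x27) =
          b0 * Y2 c0 c1 c2 e0 e1 e2 e3 f0 f2 x04 x05 x06 x07 +
          d1 * Y2 c0 c1 c2 e0 e1 e2 e3 f0 f2 x14 x15 x16 x17 +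
          b1 * Y2 c0 c1 c2 e0 e1 e2 e3 f0 f2 x24 x25 x26 x27 := by
      simp only [Y2]
      ring
    rw [h2, hY11, hY20, hY21, hY31] at h
    have : b1 * Y2 c0 c1 c2 e0 e1 e2 e3 f0 f2 x24 x25 x26 x27 = 0 := by linear_combination -h
    exact (mul_eq_zero.1 this).resolve_left hb1
  have hY13 : Y1 c0 c1 c2 e0 e2 f0 f2 x35 0 x37 = 0 := by
    have h := r1 x24 x25 x26 x27
    rw [s25, s26, s27] at h
    have h0 : Y0 c0 c1 f0 f2 x24 x26 = 0 := by rw [Y0, F2, mul_zero]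
    have h2 : Y1 c0 c1 c2 e0 e2 f0 f2 (b1 * x15 + d2 * x25 + b2 * x35)
        (b1 * x16 + d2 * x26) (b1 * x17 + d2 * x27 + b2 * x37) =
          b1 * Y1 c0 c1 c2 e0 e2 f0 f2 x15 x16 x17 + d2 * Y1 c0 c1 c2 e0 e2 f0 f2 x25 x26 x27 +
          b2 * Y1 c0 c1 c2 e0 e2 f0 f2 x35 0 x37 := by
      simp only [Y1]
      ring
    rw [h2, h0, hY11, hY12, hY22] at h
    have : b2 * Y1 c0 c1 c2 e0 e2 f0 f2 x35 0 x37 = 0 := by linear_combination -h
    exact (mul_eq_zero.1 this).resolve_left hb2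
  have G : c0 * f0 * x35 + f2 * (c1 * x35 + c2 * x37) = 0 := by
    have : c1 * (c0 * f0 * x35 + f2 * (c1 * x35 + c2 * x37)) = 0 := by
      rw [Y1] at hY13
      linear_combination hY13
    exact (mul_eq_zero.1 this).resolve_left hc1
  have z35 : x35 = 0 := by
    have : (2 * (c1 * f2)) * x35 = 0 := by
      have h1 : c1 * (c0 * x46) = c1 * (f2 * x35 + c2 * x57) := by rw [E56]
      have h2 : c0 * (f0 * x35) = c0 * (c1 * x46) := by rw [E45]
      linear_combination G - h2 - h1 - c2 * E67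
    have h2 : (2 * (c1 * f2)) ≠ 0 := mul_ne_zero two_ne_zero (mul_ne_zero hc1 hf2)
    exact (mul_eq_zero.1 this).resolve_left h2
  subst z35
  have z37 : x37 = 0 := by
    have : (f2 * c2) * x37 = 0 := by linear_combination G
    exact (mul_eq_zero.1 this).resolve_left (mul_ne_zero hf2 hc2)
  subst z37
  have z46 : x46 = 0 := by
    have : c1 * x46 = 0 := by linear_combination -E45
    exact (mul_eq_zero.1 this).resolve_left hc1
  subst z46
  have z57 : x57 = 0 := by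
    have : c1 * x57 = 0 := by linear_combination E67
    exact (mul_eq_zero.1 this).resolve_left hc1
  have z47 : x47 = 0 := by
    have : c2 * x47 = 0 := by linear_combination -E46
    exact (mul_eq_zero.1 this).resolve_left hc2
  subst z47
  have z24 : x24 = 0 := by
    have : b2 * x24 = 0 := by linear_combination E34
    exact (mul_eq_zero.1 this).resolve_left hb2
  have z25 : x25 = 0 := by
    have : b2 * x25 = 0 := by linear_combination E35
    exact (mul_eq_zero.1 this).resolve_left hb2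
  have z26 : x26 = 0 := by
    have : b2 * x26 = 0 := by linear_combination E36
    exact (mul_eq_zero.1 this).resolve_left hb2
  have z27 : x27 = 0 := by
    have : b2 * x27 = 0 := by linear_combination E37
    exact (mul_eq_zero.1 this).resolve_left hb2
  subst z24 z25 z26 z27
  have z14 : x14 = 0 := by
    have : b1 * x14 = 0 := by linear_combination E24
    exact (mul_eq_zero.1 this).resolve_left hb1
  have z15 : x15 = 0 := by
    have : b1 * x15 = 0 := by linear_combination E25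
    exact (mul_eq_zero.1 this).resolve_left hb1
  have z16 : x16 = 0 := by
    have : b1 * x16 = 0 := by linear_combination E26
    exact (mul_eq_zero.1 this).resolve_left hb1
  have z17 : x17 = 0 := by
    have : b1 * x17 = 0 := by linear_combination E27
    exact (mul_eq_zero.1 this).resolve_left hb1
  subst z14 z15 z16 z17
  have z04 : x04 = 0 := by
    have : b0 * x04 = 0 := by linear_combination E14
    exact (mul_eq_zero.1 this).resolve_left hb0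
  have z05 : x05 = 0 := by
    have : b0 * x05 = 0 := by linear_combination E15
    exact (mul_eq_zero.1 this).resolve_left hb0
  have z06 : x06 = 0 := by
    have : b0 * x06 = 0 := by linear_combination E16
    exact (mul_eq_zero.1 this).resolve_left hb0
  have z07 : x07 = 0 := by
    have : b0 * x07 = 0 := by linear_combination E17
    exact (mul_eq_zero.1 this).resolve_left hb0
  simp [z04, z05, z06, z07, z57]

end Pool.Agent.Lib.MP_3aeeeb_co
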