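import Mathlib

/-! Definitions: the Strong Spectral Property and the class of SSP graphs; unicyclic graphs;
tadpoles. -/

set_option autoImplicit false

open Matrix

namespace Pool.Agent.Lib.MP_3aeeeb_co

/-- `𝒮(G)`: real symmetric matrices whose off-diagonal entry `(i, j)` is nonzero exactly when
`i` and `j` are adjacent in `G`. -/
def InS {n : ℕ} (G : SimpleGraph (Fin n)) (A : Matrix (Fin n) (Fin n) ℝ) : Prop :=
  A.IsSymm ∧ ∀ i j, i ≠ j → (A i j ≠ 0 ↔ G.Adj i j)

/-- The Strong Spectral Property: the only real symmetric `X` with `A ∘ X = 0`, `I ∘ X = 0` and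
`A X - X A = 0` is `X = 0`. -/
def HasSSP {n : ℕ} (A : Matrix (Fin n) (Fin n) ℝ) : Prop :=
  ∀ X : Matrix (Fin n) (Fin n) ℝ, X.IsSymm → A ⊙ X = 0 →
    (1 : Matrix (Fin n) (Fin n) ℝ) ⊙ X = 0 → A * X - X * A = 0 → X = 0

/-- `𝒢^SSP`: every matrix of `𝒮(G)` has the Strong Spectral Property. -/
def IsSSPGraph {n : ℕ} (G : SimpleGraph (Fin n)) : Prop :=
  ∀ A : Matrix (Fin n) (Fin n) ℝ, InS G A → HasSSP A

/-- `s` is the edge set of a cycle of `G`. -/
def IsCycleEdgeSet {V : Type} (G : SimpleGraph V) (s : Set (Sym2 V)) : Prop :=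
  ∃ (v : V) (w : G.Walk v v), w.IsCycle ∧ s = {e | e ∈ w.edges}

/-- A unicyclic graph: a connected graph with exactly one cycle (cycles being identified with
their edge sets). -/
def IsUnicyclic {V : Type} (G : SimpleGraph V) : Prop :=
  G.Connected ∧ ∃! s : Set (Sym2 V), IsCycleEdgeSet G s

/-- The tadpole `T_{m,n}`: the cycle on the vertices `0, ..., m - 1` together with the path
`m - 1, m, ..., m + n - 1`. -/
def tadpole (m n : ℕ) : SimpleGraph (Fin (m + n)) :=
  SimpleGraph.fromRel fun i j => i.val + 1 = j.val ∨ (i.val = 0 ∧ j.val = m - 1)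

end Pool.Agent.Lib.MP_3aeeeb_co
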