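import Pool.Agent.Lib.MP_3aeeeb_co.Matrices

/-! The example graph is unicyclic of girth four and is not a cycle or a tadpole. -/

set_option autoImplicit false

open SimpleGraph

namespace Pool.Agent.Lib.MP_3aeeeb_co

/-- the edge set of the four-cycle -/
def cyc : Set (Sym2 (Fin 8)) := {s(3, 4), s(4, 5), s(5, 6), s(3, 6)}

/-- the four-cycle as a closed walk -/
def cycWalk : exGraph.Walk 3 3 :=
  Walk.cons (show exGraph.Adj 3 4 by decide) (Walk.cons (show exGraph.Adj 4 5 by decide)
    (Walk.cons (show exGraph.Adj 5 6 by decide) (Walk.cons (show exGraph.Adj 6 3 by decide)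
      Walk.nil)))

theorem cycWalk_isCycle : cycWalk.IsCycle := by
  rw [cycWalk, Walk.cons_isCycle_iff]
  constructor
  · simp [Walk.cons_isPath_iff]
  · simp

theorem cycWalk_edges : {e | e ∈ cycWalk.edges} = cyc := by
  ext e
  simp only [cycWalk, Walk.edges_cons, Walk.edges_nil, Set.mem_ofPred_eq, List.mem_cons,
    List.not_mem_nil, or_false, cyc, Set.mem_insert_iff, Set.mem_singleton_iff]
  rw [Sym2.eq_swap (a := (6 : Fin 8)) (b := 3)]

theorem cycle_edges {v : Fin 8} (w : exGraph.Walk v v) (hw : w.IsCycle) :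
    {e | e ∈ w.edges} = cyc := by
  have hG : ∀ u x, w.toSubgraph.Adj u x → exGraph.Adj u x := fun u x h => h.adj_sub
  have hs : ∀ u x, w.toSubgraph.Adj u x → x ∈ w.support := fun u x h =>
    (Walk.mem_verts_toSubgraph w).1 (w.toSubgraph.edge_vert h.symm)
  have h2 : ∀ u, u ∈ w.support → ∃ a b, a ≠ b ∧ w.toSubgraph.Adj u a ∧ w.toSubgraph.Adj u b := by
    intro u hu
    have h := hw.ncard_neighborSet_toSubgraph_eq_two hu
    obtain ⟨a, b, hab, hs⟩ := Set.ncard_eq_two.1 h
    refine ⟨a, b, hab, ?_, ?_⟩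
    · have : a ∈ w.toSubgraph.neighborSet u := by rw [hs]; simp
      exact this
    · have : b ∈ w.toSubgraph.neighborSet u := by rw [hs]; simp
      exact this
  have n0 : (0 : Fin 8) ∉ w.support := by
    intro h
    obtain ⟨a, b, hab, ha, hb⟩ := h2 _ h
    have ha' := (exGraph_adj _ _).1 (hG _ _ ha)
    have hb' := (exGraph_adj _ _).1 (hG _ _ hb)
    apply hab
    apply Fin.ext
    simp only [Fin.isValue, Fin.val_zero] at ha' hb'
    omega
  have n7 : (7 : Fin 8) ∉ w.support := by
    intro h
    obtain ⟨a, b, hab, ha, hb⟩ := h2 _ h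
    have ha' := (exGraph_adj _ _).1 (hG _ _ ha)
    have hb' := (exGraph_adj _ _).1 (hG _ _ hb)
    apply hab
    apply Fin.ext
    have h7 : (7 : Fin 8).val = 7 := rfl
    rw [h7] at ha' hb'
    omega
  have n1 : (1 : Fin 8) ∉ w.support := by
    intro h
    obtain ⟨a, b, hab, ha, hb⟩ := h2 _ h
    have ha' := (exGraph_adj _ _).1 (hG _ _ ha)
    have hb' := (exGraph_adj _ _).1 (hG _ _ hb)
    have ha0 : a.val ≠ 0 := fun e => n0 (by
      have : a = 0 := Fin.ext e
      rw [← this]; exact hs _ _ ha)
    have hb0 : b.val ≠ 0 := fun e => n0 (by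
      have : b = 0 := Fin.ext e
      rw [← this]; exact hs _ _ hb)
    apply hab
    apply Fin.ext
    have h7 : (1 : Fin 8).val = 1 := rfl
    rw [h7] at ha' hb'
    omega
  have n2 : (2 : Fin 8) ∉ w.support := by
    intro h
    obtain ⟨a, b, hab, ha, hb⟩ := h2 _ h
    have ha' := (exGraph_adj _ _).1 (hG _ _ ha)
    have hb' := (exGraph_adj _ _).1 (hG _ _ hb)
    have ha0 : a.val ≠ 1 := fun e => n1 (by
      have : a = 1 := Fin.ext e
      rw [← this]; exact hs _ _ ha)
    have hb0 : b.val ≠ 1 := fun e => n1 (by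
      have : b = 1 := Fin.ext e
      rw [← this]; exact hs _ _ hb)
    apply hab
    apply Fin.ext
    have h7 : (2 : Fin 8).val = 2 := rfl
    rw [h7] at ha' hb'
    omega
  -- the two neighbours of a vertex of the cycle
  have key : ∀ u x y : Fin 8, (∀ z : Fin 8, exGraph.Adj u z → z ∈ w.support → z = x ∨ z = y) →
      u ∈ w.support → w.toSubgraph.Adj u x ∧ w.toSubgraph.Adj u y := by
    intro u x y h hu
    obtain ⟨a, b, hab, ha, hb⟩ := h2 _ hu
    rcases h a (hG _ _ ha) (hs _ _ ha) with e1 | e1 <;>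
      rcases h b (hG _ _ hb) (hs _ _ hb) with e2 | e2
    · exact absurd (e1.trans e2.symm) hab
    · subst e1 e2; exact ⟨ha, hb⟩
    · subst e1 e2; exact ⟨hb, ha⟩
    · exact absurd (e1.trans e2.symm) hab
  have k3 : (3 : Fin 8) ∈ w.support → w.toSubgraph.Adj 3 4 ∧ w.toSubgraph.Adj 3 6 := by
    refine key 3 4 6 ?_
    intro z hz hz'
    fin_cases z <;> first | exact absurd hz (by decide) | exact absurd hz' n2 | simp
  have k4 : (4 : Fin 8) ∈ w.support → w.toSubgraph.Adj 4 3 ∧ w.toSubgraph.Adj 4 5 := by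
    refine key 4 3 5 ?_
    intro z hz hz'
    fin_cases z <;> first | exact absurd hz (by decide) | simp
  have k5 : (5 : Fin 8) ∈ w.support → w.toSubgraph.Adj 5 4 ∧ w.toSubgraph.Adj 5 6 := by
    refine key 5 4 6 ?_
    intro z hz hz'
    fin_cases z <;> first | exact absurd hz (by decide) | simp
  have k6 : (6 : Fin 8) ∈ w.support → w.toSubgraph.Adj 6 5 ∧ w.toSubgraph.Adj 6 3 := by
    refine key 6 5 3 ?_
    intro z hz hz'
    fin_cases z <;> first | exact absurd hz (by decide) | exact absurd hz' n7 | simp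
  have h3 : (3 : Fin 8) ∈ w.support := by
    have hv : v ∈ w.support := w.start_mem_support
    fin_cases v
    · exact absurd hv n0
    · exact absurd hv n1
    · exact absurd hv n2
    · exact hv
    · exact hs _ _ (k4 hv).1
    · exact hs _ _ (k4 (hs _ _ (k5 hv).1)).1
    · exact hs _ _ (k6 hv).2
    · exact absurd hv n7
  have h4 : (4 : Fin 8) ∈ w.support := hs _ _ (k3 h3).1
  have h6 : (6 : Fin 8) ∈ w.support := hs _ _ (k3 h3).2
  have h5 : (5 : Fin 8) ∈ w.support := hs _ _ (k4 h4).2
  have hsupp : ∀ u ∈ w.support, u = 3 ∨ u = 4 ∨ u = 5 ∨ u = 6 := by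
    intro u hu
    fin_cases u
    · exact absurd hu n0
    · exact absurd hu n1
    · exact absurd hu n2
    · simp
    · simp
    · simp
    · simp
    · exact absurd hu n7
  ext e
  rw [Set.mem_ofPred_eq]
  constructor
  · intro he
    induction e using Sym2.ind with
    | _ x y =>
      have hadj : exGraph.Adj x y := w.adj_of_mem_edges he
      have hx := hsupp x (w.fst_mem_support_of_mem_edges he)
      have hy := hsupp y (w.snd_mem_support_of_mem_edges he)
      rcases hx with rfl | rfl | rfl | rfl <;> rcases hy with rfl | rfl | rfl | rfl <;>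
        first
        | exact absurd hadj (by decide)
        | simp [cyc]
  · intro he
    simp only [cyc, Set.mem_insert_iff, Set.mem_singleton_iff] at he
    rcases he with rfl | rfl | rfl | rfl
    · exact Walk.adj_toSubgraph_iff_mem_edges.1 (k3 h3).1
    · exact Walk.adj_toSubgraph_iff_mem_edges.1 (k4 h4).2
    · exact Walk.adj_toSubgraph_iff_mem_edges.1 (k5 h5).2
    · exact Walk.adj_toSubgraph_iff_mem_edges.1 (k3 h3).2

theorem exGraph_connected : exGraph.Connected := by
  have h1 : exGraph.Reachable 0 1 := (show exGraph.Adj 0 1 by decide).reachable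
  have h2 := h1.trans (show exGraph.Adj 1 2 by decide).reachable
  have h3 := h2.trans (show exGraph.Adj 2 3 by decide).reachable
  have h4 := h3.trans (show exGraph.Adj 3 4 by decide).reachable
  have h5 := h4.trans (show exGraph.Adj 4 5 by decide).reachable
  have h6 := h5.trans (show exGraph.Adj 5 6 by decide).reachable
  have h7 := h6.trans (show exGraph.Adj 6 7 by decide).reachable
  rw [connected_iff_exists_forall_reachable]
  refine ⟨0, fun i => ?_⟩
  fin_cases i
  · exact Reachable.refl _
  · exact h1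
  · exact h2
  · exact h3
  · exact h4
  · exact h5
  · exact h6
  · exact h7

theorem exGraph_unicyclic : IsUnicyclic exGraph := by
  refine ⟨exGraph_connected, cyc, ⟨3, cycWalk, cycWalk_isCycle, cycWalk_edges.symm⟩, ?_⟩
  rintro s ⟨v, w, hw, rfl⟩
  exact cycle_edges w hw

theorem exGraph_girth : exGraph.girth = 4 := by
  have hnot : ¬ exGraph.IsAcyclic := fun h => h cycWalk cycWalk_isCycle
  apply le_antisymm
  · have := girth_le_length cycWalk_isCycle
    simpa [cycWalk] using this
  · obtain ⟨a, w, hw, hl⟩ := exists_girth_eq_length.2 hnot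
    rw [hl, ← Walk.length_edges]
    have hnd : w.edges.Nodup := hw.edges_nodup
    rw [← List.toFinset_card_of_nodup hnd]
    have : ({s(3, 4), s(4, 5), s(5, 6), s(3, 6)} : Finset (Sym2 (Fin 8))) ⊆ w.edges.toFinset := by
      intro e he
      have h1 : e ∈ cyc := by simpa [cyc] using he
      rw [← cycle_edges w hw] at h1
      simpa using h1
    refine le_trans ?_ (Finset.card_le_card this)
    decide

/-- In a tadpole, a vertex with three neighbours is the vertex `m - 1`. -/
theorem tadpole_three {m n : ℕ} (i a b c : Fin (m + n)) (hab : a ≠ b)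
    (hac : a ≠ c) (hbc : b ≠ c) (ha : (tadpole m n).Adj i a) (hb : (tadpole m n).Adj i b)
    (hc : (tadpole m n).Adj i c) : i.val = m - 1 := by
  simp only [tadpole, SimpleGraph.fromRel_adj] at ha hb hc
  have hab' : a.val ≠ b.val := fun h => hab (Fin.ext h)
  have hac' : a.val ≠ c.val := fun h => hac (Fin.ext h)
  have hbc' : b.val ≠ c.val := fun h => hbc (Fin.ext h)
  have ha2 := ha.2
  have hb2 := hb.2
  have hc2 := hc.2
  omega

theorem not_tadpole (m n : ℕ) : IsEmpty (exGraph ≃g tadpole m n) := by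
  constructor
  intro f
  have h3 : (f 3).val = m - 1 := by
    refine tadpole_three (f 3) (f 2) (f 4) (f 6) (by simp) (by simp) (by simp) ?_ ?_ ?_
    · exact f.map_rel_iff.2 (show exGraph.Adj 3 2 by decide)
    · exact f.map_rel_iff.2 (show exGraph.Adj 3 4 by decide)
    · exact f.map_rel_iff.2 (show exGraph.Adj 3 6 by decide)
  have h6 : (f 6).val = m - 1 := by
    refine tadpole_three (f 6) (f 3) (f 5) (f 7) (by simp) (by simp) (by simp) ?_ ?_ ?_
    · exact f.map_rel_iff.2 (show exGraph.Adj 6 3 by decide)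
    · exact f.map_rel_iff.2 (show exGraph.Adj 6 5 by decide)
    · exact f.map_rel_iff.2 (show exGraph.Adj 6 7 by decide)
  have : f 3 = f 6 := Fin.ext (h3.trans h6.symm)
  have := f.injective this
  simp at this

theorem not_cycle {m : ℕ} (hm : m ≠ 8) : IsEmpty (exGraph ≃g SimpleGraph.cycleGraph m) := by
  constructor
  intro f
  have := Fintype.card_congr f.toEquiv
  simp at this
  exact hm this.symm

end Pool.Agent.Lib.MP_3aeeeb_co
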