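import Pool.Agent.Lib.MP_3aeeeb_co.Core
import Pool.Agent.Lib.MP_3aeeeb_co.Defs

/-! The example graph and the Strong Spectral Property for all its matrices. -/

set_option autoImplicit false
set_option linter.unusedSimpArgs false

open Matrix

namespace Pool.Agent.Lib.MP_3aeeeb_co

/-- The path `0 - 1 - ... - 7` together with the edge `{3, 6}`: a four-cycle `3, 4, 5, 6` with a
path of length three attached at `3` and a pendant vertex attached at the adjacent vertex `6`. -/
def exGraph : SimpleGraph (Fin 8) where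
  Adj i j := i.val + 1 = j.val ∨ j.val + 1 = i.val ∨ (i.val = 3 ∧ j.val = 6) ∨
    (i.val = 6 ∧ j.val = 3)
  symm := ⟨fun i j h => by omega⟩
  loopless := ⟨fun i h => by omega⟩

theorem exGraph_adj (i j : Fin 8) : exGraph.Adj i j ↔ (i.val + 1 = j.val ∨ j.val + 1 = i.val ∨
    (i.val = 3 ∧ j.val = 6) ∨ (i.val = 6 ∧ j.val = 3)) := Iff.rfl

instance : DecidableRel exGraph.Adj := fun i j => by
  rw [exGraph_adj]
  infer_instance

theorem exGraph_ssp : IsSSPGraph exGraph := by
  intro A hA X hX hAX hIX hc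
  obtain ⟨hsym, hpat⟩ := hA
  have hz : ∀ i j : Fin 8, i ≠ j → ¬ exGraph.Adj i j → A i j = 0 := by
    intro i j hij h
    by_contra h0
    exact h ((hpat i j hij).1 h0)
  have hnz : ∀ i j : Fin 8, exGraph.Adj i j → A i j ≠ 0 := by
    intro i j h
    exact (hpat i j (fun e => by subst e; exact exGraph.loopless.irrefl _ h)).2 h
  have hxz : ∀ i j : Fin 8, exGraph.Adj i j → X i j = 0 := by
    intro i j h
    have h1 : A i j * X i j = 0 := congrFun (congrFun hAX i) j
    exact (mul_eq_zero.1 h1).resolve_left (hnz i j h)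
  have hxd : ∀ i : Fin 8, X i i = 0 := by
    intro i
    have h1 : (1 : Matrix (Fin 8) (Fin 8) ℝ) i i * X i i = 0 := congrFun (congrFun hIX i) i
    simpa using h1
  have a02 : A 0 2 = 0 := hz 0 2 (by decide) (by decide)
  have a03 : A 0 3 = 0 := hz 0 3 (by decide) (by decide)
  have a04 : A 0 4 = 0 := hz 0 4 (by decide) (by decide)
  have a05 : A 0 5 = 0 := hz 0 5 (by decide) (by decide)
  have a06 : A 0 6 = 0 := hz 0 6 (by decide) (by decide)
  have a07 : A 0 7 = 0 := hz 0 7 (by decide) (by decide)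
  have a10 : A 1 0 = A 0 1 := hsym.apply 0 1
  have a13 : A 1 3 = 0 := hz 1 3 (by decide) (by decide)
  have a14 : A 1 4 = 0 := hz 1 4 (by decide) (by decide)
  have a15 : A 1 5 = 0 := hz 1 5 (by decide) (by decide)
  have a16 : A 1 6 = 0 := hz 1 6 (by decide) (by decide)
  have a17 : A 1 7 = 0 := hz 1 7 (by decide) (by decide)
  have a20 : A 2 0 = 0 := hz 2 0 (by decide) (by decide)
  have a21 : A 2 1 = A 1 2 := hsym.apply 1 2
  have a24 : A 2 4 = 0 := hz 2 4 (by decide) (by decide)
  have a25 : A 2 5 = 0 := hz 2 5 (by decide) (by decide)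
  have a26 : A 2 6 = 0 := hz 2 6 (by decide) (by decide)
  have a27 : A 2 7 = 0 := hz 2 7 (by decide) (by decide)
  have a30 : A 3 0 = 0 := hz 3 0 (by decide) (by decide)
  have a31 : A 3 1 = 0 := hz 3 1 (by decide) (by decide)
  have a32 : A 3 2 = A 2 3 := hsym.apply 2 3
  have a35 : A 3 5 = 0 := hz 3 5 (by decide) (by decide)
  have a37 : A 3 7 = 0 := hz 3 7 (by decide) (by decide)
  have a40 : A 4 0 = 0 := hz 4 0 (by decide) (by decide)
  have a41 : A 4 1 = 0 := hz 4 1 (by decide) (by decide)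
  have a42 : A 4 2 = 0 := hz 4 2 (by decide) (by decide)
  have a43 : A 4 3 = A 3 4 := hsym.apply 3 4
  have a46 : A 4 6 = 0 := hz 4 6 (by decide) (by decide)
  have a47 : A 4 7 = 0 := hz 4 7 (by decide) (by decide)
  have a50 : A 5 0 = 0 := hz 5 0 (by decide) (by decide)
  have a51 : A 5 1 = 0 := hz 5 1 (by decide) (by decide)
  have a52 : A 5 2 = 0 := hz 5 2 (by decide) (by decide)
  have a53 : A 5 3 = 0 := hz 5 3 (by decide) (by decide)
  have a54 : A 5 4 = A 4 5 := hsym.apply 4 5
  have a57 : A 5 7 = 0 := hz 5 7 (by decide) (by decide)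
  have a60 : A 6 0 = 0 := hz 6 0 (by decide) (by decide)
  have a61 : A 6 1 = 0 := hz 6 1 (by decide) (by decide)
  have a62 : A 6 2 = 0 := hz 6 2 (by decide) (by decide)
  have a63 : A 6 3 = A 3 6 := hsym.apply 3 6
  have a64 : A 6 4 = 0 := hz 6 4 (by decide) (by decide)
  have a65 : A 6 5 = A 5 6 := hsym.apply 5 6
  have a70 : A 7 0 = 0 := hz 7 0 (by decide) (by decide)
  have a71 : A 7 1 = 0 := hz 7 1 (by decide) (by decide)
  have a72 : A 7 2 = 0 := hz 7 2 (by decide) (by decide)
  have a73 : A 7 3 = 0 := hz 7 3 (by decide) (by decide)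
  have a74 : A 7 4 = 0 := hz 7 4 (by decide) (by decide)
  have a75 : A 7 5 = 0 := hz 7 5 (by decide) (by decide)
  have a76 : A 7 6 = A 6 7 := hsym.apply 6 7
  have x00 : X 0 0 = 0 := hxd 0
  have x01 : X 0 1 = 0 := hxz 0 1 (by decide)
  have x10 : X 1 0 = 0 := hxz 1 0 (by decide)
  have x11 : X 1 1 = 0 := hxd 1
  have x12 : X 1 2 = 0 := hxz 1 2 (by decide)
  have x20 : X 2 0 = X 0 2 := hX.apply 0 2
  have x21 : X 2 1 = 0 := hxz 2 1 (by decide)
  have x22 : X 2 2 = 0 := hxd 2
  have x23 : X 2 3 = 0 := hxz 2 3 (by decide)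
  have x30 : X 3 0 = X 0 3 := hX.apply 0 3
  have x31 : X 3 1 = X 1 3 := hX.apply 1 3
  have x32 : X 3 2 = 0 := hxz 3 2 (by decide)
  have x33 : X 3 3 = 0 := hxd 3
  have x34 : X 3 4 = 0 := hxz 3 4 (by decide)
  have x36 : X 3 6 = 0 := hxz 3 6 (by decide)
  have x40 : X 4 0 = X 0 4 := hX.apply 0 4
  have x41 : X 4 1 = X 1 4 := hX.apply 1 4
  have x42 : X 4 2 = X 2 4 := hX.apply 2 4
  have x43 : X 4 3 = 0 := hxz 4 3 (by decide)
  have x44 : X 4 4 = 0 := hxd 4
  have x45 : X 4 5 = 0 := hxz 4 5 (by decide)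
  have x50 : X 5 0 = X 0 5 := hX.apply 0 5
  have x51 : X 5 1 = X 1 5 := hX.apply 1 5
  have x52 : X 5 2 = X 2 5 := hX.apply 2 5
  have x53 : X 5 3 = X 3 5 := hX.apply 3 5
  have x54 : X 5 4 = 0 := hxz 5 4 (by decide)
  have x55 : X 5 5 = 0 := hxd 5
  have x56 : X 5 6 = 0 := hxz 5 6 (by decide)
  have x60 : X 6 0 = X 0 6 := hX.apply 0 6
  have x61 : X 6 1 = X 1 6 := hX.apply 1 6
  have x62 : X 6 2 = X 2 6 := hX.apply 2 6
  have x63 : X 6 3 = 0 := hxz 6 3 (by decide)
  have x64 : X 6 4 = X 4 6 := hX.apply 4 6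
  have x65 : X 6 5 = 0 := hxz 6 5 (by decide)
  have x66 : X 6 6 = 0 := hxd 6
  have x67 : X 6 7 = 0 := hxz 6 7 (by decide)
  have x70 : X 7 0 = X 0 7 := hX.apply 0 7
  have x71 : X 7 1 = X 1 7 := hX.apply 1 7
  have x72 : X 7 2 = X 2 7 := hX.apply 2 7
  have x73 : X 7 3 = X 3 7 := hX.apply 3 7
  have x74 : X 7 4 = X 4 7 := hX.apply 4 7
  have x75 : X 7 5 = X 5 7 := hX.apply 5 7
  have x76 : X 7 6 = 0 := hxz 7 6 (by decide)
  have x77 : X 7 7 = 0 := hxd 7
  have key : ∀ i j : Fin 8, (A * X) i j = (X * A) i j := by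
    intro i j
    have := congrFun (congrFun hc i) j
    rw [Matrix.sub_apply, Matrix.zero_apply, sub_eq_zero] at this
    exact this
  have E01 := key 0 1
  simp only [Matrix.mul_apply, Fin.sum_univ_eight, a02, a03, a04, a05, a06, a07, a10, a13, a14, a15, a16, a17, a20, a21, a24, a25, a26, a27, a30, a31, a32, a35, a37, a40, a41, a42, a43, a46, a47, a50, a51, a52, a53, a54, a57, a60, a61, a62, a63, a64, a65, a70, a71, a72, a73, a74, a75, a76, x00, x01, x10, x11, x12, x20, x21, x22, x23, x30, x31, x32, x33, x34, x36, x40, x41, x42, x43, x44, x45, x50, x51, x52, x53, x54, x55, x56, x60, x61, x62, x63, x64, x65, x66, x67, x70, x71, x72, x73, x74, x75, x76, x77, mul_zero, zero_mul, add_zero, zero_add] at E01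
  have E02 := key 0 2
  simp only [Matrix.mul_apply, Fin.sum_univ_eight, a02, a03, a04, a05, a06, a07, a10, a13, a14, a15, a16, a17, a20, a21, a24, a25, a26, a27, a30, a31, a32, a35, a37, a40, a41, a42, a43, a46, a47, a50, a51, a52, a53, a54, a57, a60, a61, a62, a63, a64, a65, a70, a71, a72, a73, a74, a75, a76, x00, x01, x10, x11, x12, x20, x21, x22, x23, x30, x31, x32, x33, x34, x36, x40, x41, x42, x43, x44, x45, x50, x51, x52, x53, x54, x55, x56, x60, x61, x62, x63, x64, x65, x66, x67, x70, x71, x72, x73, x74, x75, x76, x77, mul_zero, zero_mul, add_zero, zero_add] at E02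
  have E03 := key 0 3
  simp only [Matrix.mul_apply, Fin.sum_univ_eight, a02, a03, a04, a05, a06, a07, a10, a13, a14, a15, a16, a17, a20, a21, a24, a25, a26, a27, a30, a31, a32, a35, a37, a40, a41, a42, a43, a46, a47, a50, a51, a52, a53, a54, a57, a60, a61, a62, a63, a64, a65, a70, a71, a72, a73, a74, a75, a76, x00, x01, x10, x11, x12, x20, x21, x22, x23, x30, x31, x32, x33, x34, x36, x40, x41, x42, x43, x44, x45, x50, x51, x52, x53, x54, x55, x56, x60, x61, x62, x63, x64, x65, x66, x67, x70, x71, x72, x73, x74, x75, x76, x77, mul_zero, zero_mul, add_zero, zero_add] at E03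
  have E04 := key 0 4
  simp only [Matrix.mul_apply, Fin.sum_univ_eight, a02, a03, a04, a05, a06, a07, a10, a13, a14, a15, a16, a17, a20, a21, a24, a25, a26, a27, a30, a31, a32, a35, a37, a40, a41, a42, a43, a46, a47, a50, a51, a52, a53, a54, a57, a60, a61, a62, a63, a64, a65, a70, a71, a72, a73, a74, a75, a76, x00, x01, x10, x11, x12, x20, x21, x22, x23, x30, x31, x32, x33, x34, x36, x40, x41, x42, x43, x44, x45, x50, x51, x52, x53, x54, x55, x56, x60, x61, x62, x63, x64, x65, x66, x67, x70, x71, x72, x73, x74, x75, x76, x77, mul_zero, zero_mul, add_zero, zero_add] at E04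
  have E05 := key 0 5
  simp only [Matrix.mul_apply, Fin.sum_univ_eight, a02, a03, a04, a05, a06, a07, a10, a13, a14, a15, a16, a17, a20, a21, a24, a25, a26, a27, a30, a31, a32, a35, a37, a40, a41, a42, a43, a46, a47, a50, a51, a52, a53, a54, a57, a60, a61, a62, a63, a64, a65, a70, a71, a72, a73, a74, a75, a76, x00, x01, x10, x11, x12, x20, x21, x22, x23, x30, x31, x32, x33, x34, x36, x40, x41, x42, x43, x44, x45, x50, x51, x52, x53, x54, x55, x56, x60, x61, x62, x63, x64, x65, x66, x67, x70, x71, x72, x73, x74, x75, x76, x77, mul_zero, zero_mul, add_zero, zero_add] at E05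
  have E06 := key 0 6
  simp only [Matrix.mul_apply, Fin.sum_univ_eight, a02, a03, a04, a05, a06, a07, a10, a13, a14, a15, a16, a17, a20, a21, a24, a25, a26, a27, a30, a31, a32, a35, a37, a40, a41, a42, a43, a46, a47, a50, a51, a52, a53, a54, a57, a60, a61, a62, a63, a64, a65, a70, a71, a72, a73, a74, a75, a76, x00, x01, x10, x11, x12, x20, x21, x22, x23, x30, x31, x32, x33, x34, x36, x40, x41, x42, x43, x44, x45, x50, x51, x52, x53, x54, x55, x56, x60, x61, x62, x63, x64, x65, x66, x67, x70, x71, x72, x73, x74, x75, x76, x77, mul_zero, zero_mul, add_zero, zero_add] at E06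
  have E07 := key 0 7
  simp only [Matrix.mul_apply, Fin.sum_univ_eight, a02, a03, a04, a05, a06, a07, a10, a13, a14, a15, a16, a17, a20, a21, a24, a25, a26, a27, a30, a31, a32, a35, a37, a40, a41, a42, a43, a46, a47, a50, a51, a52, a53, a54, a57, a60, a61, a62, a63, a64, a65, a70, a71, a72, a73, a74, a75, a76, x00, x01, x10, x11, x12, x20, x21, x22, x23, x30, x31, x32, x33, x34, x36, x40, x41, x42, x43, x44, x45, x50, x51, x52, x53, x54, x55, x56, x60, x61, x62, x63, x64, x65, x66, x67, x70, x71, x72, x73, x74, x75, x76, x77, mul_zero, zero_mul, add_zero, zero_add] at E07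
  have E12 := key 1 2
  simp only [Matrix.mul_apply, Fin.sum_univ_eight, a02, a03, a04, a05, a06, a07, a10, a13, a14, a15, a16, a17, a20, a21, a24, a25, a26, a27, a30, a31, a32, a35, a37, a40, a41, a42, a43, a46, a47, a50, a51, a52, a53, a54, a57, a60, a61, a62, a63, a64, a65, a70, a71, a72, a73, a74, a75, a76, x00, x01, x10, x11, x12, x20, x21, x22, x23, x30, x31, x32, x33, x34, x36, x40, x41, x42, x43, x44, x45, x50, x51, x52, x53, x54, x55, x56, x60, x61, x62, x63, x64, x65, x66, x67, x70, x71, x72, x73, x74, x75, x76, x77, mul_zero, zero_mul, add_zero, zero_add] at E12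
  have E13 := key 1 3
  simp only [Matrix.mul_apply, Fin.sum_univ_eight, a02, a03, a04, a05, a06, a07, a10, a13, a14, a15, a16, a17, a20, a21, a24, a25, a26, a27, a30, a31, a32, a35, a37, a40, a41, a42, a43, a46, a47, a50, a51, a52, a53, a54, a57, a60, a61, a62, a63, a64, a65, a70, a71, a72, a73, a74, a75, a76, x00, x01, x10, x11, x12, x20, x21, x22, x23, x30, x31, x32, x33, x34, x36, x40, x41, x42, x43, x44, x45, x50, x51, x52, x53, x54, x55, x56, x60, x61, x62, x63, x64, x65, x66, x67, x70, x71, x72, x73, x74, x75, x76, x77, mul_zero, zero_mul, add_zero, zero_add] at E13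
  have E14 := key 1 4
  simp only [Matrix.mul_apply, Fin.sum_univ_eight, a02, a03, a04, a05, a06, a07, a10, a13, a14, a15, a16, a17, a20, a21, a24, a25, a26, a27, a30, a31, a32, a35, a37, a40, a41, a42, a43, a46, a47, a50, a51, a52, a53, a54, a57, a60, a61, a62, a63, a64, a65, a70, a71, a72, a73, a74, a75, a76, x00, x01, x10, x11, x12, x20, x21, x22, x23, x30, x31, x32, x33, x34, x36, x40, x41, x42, x43, x44, x45, x50, x51, x52, x53, x54, x55, x56, x60, x61, x62, x63, x64, x65, x66, x67, x70, x71, x72, x73, x74, x75, x76, x77, mul_zero, zero_mul, add_zero, zero_add] at E14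
  have E15 := key 1 5
  simp only [Matrix.mul_apply, Fin.sum_univ_eight, a02, a03, a04, a05, a06, a07, a10, a13, a14, a15, a16, a17, a20, a21, a24, a25, a26, a27, a30, a31, a32, a35, a37, a40, a41, a42, a43, a46, a47, a50, a51, a52, a53, a54, a57, a60, a61, a62, a63, a64, a65, a70, a71, a72, a73, a74, a75, a76, x00, x01, x10, x11, x12, x20, x21, x22, x23, x30, x31, x32, x33, x34, x36, x40, x41, x42, x43, x44, x45, x50, x51, x52, x53, x54, x55, x56, x60, x61, x62, x63, x64, x65, x66, x67, x70, x71, x72, x73, x74, x75, x76, x77, mul_zero, zero_mul, add_zero, zero_add] at E15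
  have E16 := key 1 6
  simp only [Matrix.mul_apply, Fin.sum_univ_eight, a02, a03, a04, a05, a06, a07, a10, a13, a14, a15, a16, a17, a20, a21, a24, a25, a26, a27, a30, a31, a32, a35, a37, a40, a41, a42, a43, a46, a47, a50, a51, a52, a53, a54, a57, a60, a61, a62, a63, a64, a65, a70, a71, a72, a73, a74, a75, a76, x00, x01, x10, x11, x12, x20, x21, x22, x23, x30, x31, x32, x33, x34, x36, x40, x41, x42, x43, x44, x45, x50, x51, x52, x53, x54, x55, x56, x60, x61, x62, x63, x64, x65, x66, x67, x70, x71, x72, x73, x74, x75, x76, x77, mul_zero, zero_mul, add_zero, zero_add] at E16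
  have E17 := key 1 7
  simp only [Matrix.mul_apply, Fin.sum_univ_eight, a02, a03, a04, a05, a06, a07, a10, a13, a14, a15, a16, a17, a20, a21, a24, a25, a26, a27, a30, a31, a32, a35, a37, a40, a41, a42, a43, a46, a47, a50, a51, a52, a53, a54, a57, a60, a61, a62, a63, a64, a65, a70, a71, a72, a73, a74, a75, a76, x00, x01, x10, x11, x12, x20, x21, x22, x23, x30, x31, x32, x33, x34, x36, x40, x41, x42, x43, x44, x45, x50, x51, x52, x53, x54, x55, x56, x60, x61, x62, x63, x64, x65, x66, x67, x70, x71, x72, x73, x74, x75, x76, x77, mul_zero, zero_mul, add_zero, zero_add] at E17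
  have E23 := key 2 3
  simp only [Matrix.mul_apply, Fin.sum_univ_eight, a02, a03, a04, a05, a06, a07, a10, a13, a14, a15, a16, a17, a20, a21, a24, a25, a26, a27, a30, a31, a32, a35, a37, a40, a41, a42, a43, a46, a47, a50, a51, a52, a53, a54, a57, a60, a61, a62, a63, a64, a65, a70, a71, a72, a73, a74, a75, a76, x00, x01, x10, x11, x12, x20, x21, x22, x23, x30, x31, x32, x33, x34, x36, x40, x41, x42, x43, x44, x45, x50, x51, x52, x53, x54, x55, x56, x60, x61, x62, x63, x64, x65, x66, x67, x70, x71, x72, x73, x74, x75, x76, x77, mul_zero, zero_mul, add_zero, zero_add] at E23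
  have E24 := key 2 4
  simp only [Matrix.mul_apply, Fin.sum_univ_eight, a02, a03, a04, a05, a06, a07, a10, a13, a14, a15, a16, a17, a20, a21, a24, a25, a26, a27, a30, a31, a32, a35, a37, a40, a41, a42, a43, a46, a47, a50, a51, a52, a53, a54, a57, a60, a61, a62, a63, a64, a65, a70, a71, a72, a73, a74, a75, a76, x00, x01, x10, x11, x12, x20, x21, x22, x23, x30, x31, x32, x33, x34, x36, x40, x41, x42, x43, x44, x45, x50, x51, x52, x53, x54, x55, x56, x60, x61, x62, x63, x64, x65, x66, x67, x70, x71, x72, x73, x74, x75, x76, x77, mul_zero, zero_mul, add_zero, zero_add] at E24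
  have E25 := key 2 5
  simp only [Matrix.mul_apply, Fin.sum_univ_eight, a02, a03, a04, a05, a06, a07, a10, a13, a14, a15, a16, a17, a20, a21, a24, a25, a26, a27, a30, a31, a32, a35, a37, a40, a41, a42, a43, a46, a47, a50, a51, a52, a53, a54, a57, a60, a61, a62, a63, a64, a65, a70, a71, a72, a73, a74, a75, a76, x00, x01, x10, x11, x12, x20, x21, x22, x23, x30, x31, x32, x33, x34, x36, x40, x41, x42, x43, x44, x45, x50, x51, x52, x53, x54, x55, x56, x60, x61, x62, x63, x64, x65, x66, x67, x70, x71, x72, x73, x74, x75, x76, x77, mul_zero, zero_mul, add_zero, zero_add] at E25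
  have E26 := key 2 6
  simp only [Matrix.mul_apply, Fin.sum_univ_eight, a02, a03, a04, a05, a06, a07, a10, a13, a14, a15, a16, a17, a20, a21, a24, a25, a26, a27, a30, a31, a32, a35, a37, a40, a41, a42, a43, a46, a47, a50, a51, a52, a53, a54, a57, a60, a61, a62, a63, a64, a65, a70, a71, a72, a73, a74, a75, a76, x00, x01, x10, x11, x12, x20, x21, x22, x23, x30, x31, x32, x33, x34, x36, x40, x41, x42, x43, x44, x45, x50, x51, x52, x53, x54, x55, x56, x60, x61, x62, x63, x64, x65, x66, x67, x70, x71, x72, x73, x74, x75, x76, x77, mul_zero, zero_mul, add_zero, zero_add] at E26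
  have E27 := key 2 7
  simp only [Matrix.mul_apply, Fin.sum_univ_eight, a02, a03, a04, a05, a06, a07, a10, a13, a14, a15, a16, a17, a20, a21, a24, a25, a26, a27, a30, a31, a32, a35, a37, a40, a41, a42, a43, a46, a47, a50, a51, a52, a53, a54, a57, a60, a61, a62, a63, a64, a65, a70, a71, a72, a73, a74, a75, a76, x00, x01, x10, x11, x12, x20, x21, x22, x23, x30, x31, x32, x33, x34, x36, x40, x41, x42, x43, x44, x45, x50, x51, x52, x53, x54, x55, x56, x60, x61, x62, x63, x64, x65, x66, x67, x70, x71, x72, x73, x74, x75, x76, x77, mul_zero, zero_mul, add_zero, zero_add] at E27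
  have E34 := key 3 4
  simp only [Matrix.mul_apply, Fin.sum_univ_eight, a02, a03, a04, a05, a06, a07, a10, a13, a14, a15, a16, a17, a20, a21, a24, a25, a26, a27, a30, a31, a32, a35, a37, a40, a41, a42, a43, a46, a47, a50, a51, a52, a53, a54, a57, a60, a61, a62, a63, a64, a65, a70, a71, a72, a73, a74, a75, a76, x00, x01, x10, x11, x12, x20, x21, x22, x23, x30, x31, x32, x33, x34, x36, x40, x41, x42, x43, x44, x45, x50, x51, x52, x53, x54, x55, x56, x60, x61, x62, x63, x64, x65, x66, x67, x70, x71, x72, x73, x74, x75, x76, x77, mul_zero, zero_mul, add_zero, zero_add] at E34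
  have E35 := key 3 5
  simp only [Matrix.mul_apply, Fin.sum_univ_eight, a02, a03, a04, a05, a06, a07, a10, a13, a14, a15, a16, a17, a20, a21, a24, a25, a26, a27, a30, a31, a32, a35, a37, a40, a41, a42, a43, a46, a47, a50, a51, a52, a53, a54, a57, a60, a61, a62, a63, a64, a65, a70, a71, a72, a73, a74, a75, a76, x00, x01, x10, x11, x12, x20, x21, x22, x23, x30, x31, x32, x33, x34, x36, x40, x41, x42, x43, x44, x45, x50, x51, x52, x53, x54, x55, x56, x60, x61, x62, x63, x64, x65, x66, x67, x70, x71, x72, x73, x74, x75, x76, x77, mul_zero, zero_mul, add_zero, zero_add] at E35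
  have E36 := key 3 6
  simp only [Matrix.mul_apply, Fin.sum_univ_eight, a02, a03, a04, a05, a06, a07, a10, a13, a14, a15, a16, a17, a20, a21, a24, a25, a26, a27, a30, a31, a32, a35, a37, a40, a41, a42, a43, a46, a47, a50, a51, a52, a53, a54, a57, a60, a61, a62, a63, a64, a65, a70, a71, a72, a73, a74, a75, a76, x00, x01, x10, x11, x12, x20, x21, x22, x23, x30, x31, x32, x33, x34, x36, x40, x41, x42, x43, x44, x45, x50, x51, x52, x53, x54, x55, x56, x60, x61, x62, x63, x64, x65, x66, x67, x70, x71, x72, x73, x74, x75, x76, x77, mul_zero, zero_mul, add_zero, zero_add] at E36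
  have E37 := key 3 7
  simp only [Matrix.mul_apply, Fin.sum_univ_eight, a02, a03, a04, a05, a06, a07, a10, a13, a14, a15, a16, a17, a20, a21, a24, a25, a26, a27, a30, a31, a32, a35, a37, a40, a41, a42, a43, a46, a47, a50, a51, a52, a53, a54, a57, a60, a61, a62, a63, a64, a65, a70, a71, a72, a73, a74, a75, a76, x00, x01, x10, x11, x12, x20, x21, x22, x23, x30, x31, x32, x33, x34, x36, x40, x41, x42, x43, x44, x45, x50, x51, x52, x53, x54, x55, x56, x60, x61, x62, x63, x64, x65, x66, x67, x70, x71, x72, x73, x74, x75, x76, x77, mul_zero, zero_mul, add_zero, zero_add] at E37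
  have E45 := key 4 5
  simp only [Matrix.mul_apply, Fin.sum_univ_eight, a02, a03, a04, a05, a06, a07, a10, a13, a14, a15, a16, a17, a20, a21, a24, a25, a26, a27, a30, a31, a32, a35, a37, a40, a41, a42, a43, a46, a47, a50, a51, a52, a53, a54, a57, a60, a61, a62, a63, a64, a65, a70, a71, a72, a73, a74, a75, a76, x00, x01, x10, x11, x12, x20, x21, x22, x23, x30, x31, x32, x33, x34, x36, x40, x41, x42, x43, x44, x45, x50, x51, x52, x53, x54, x55, x56, x60, x61, x62, x63, x64, x65, x66, x67, x70, x71, x72, x73, x74, x75, x76, x77, mul_zero, zero_mul, add_zero, zero_add] at E45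
  have E46 := key 4 6
  simp only [Matrix.mul_apply, Fin.sum_univ_eight, a02, a03, a04, a05, a06, a07, a10, a13, a14, a15, a16, a17, a20, a21, a24, a25, a26, a27, a30, a31, a32, a35, a37, a40, a41, a42, a43, a46, a47, a50, a51, a52, a53, a54, a57, a60, a61, a62, a63, a64, a65, a70, a71, a72, a73, a74, a75, a76, x00, x01, x10, x11, x12, x20, x21, x22, x23, x30, x31, x32, x33, x34, x36, x40, x41, x42, x43, x44, x45, x50, x51, x52, x53, x54, x55, x56, x60, x61, x62, x63, x64, x65, x66, x67, x70, x71, x72, x73, x74, x75, x76, x77, mul_zero, zero_mul, add_zero, zero_add] at E46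
  have E56 := key 5 6
  simp only [Matrix.mul_apply, Fin.sum_univ_eight, a02, a03, a04, a05, a06, a07, a10, a13, a14, a15, a16, a17, a20, a21, a24, a25, a26, a27, a30, a31, a32, a35, a37, a40, a41, a42, a43, a46, a47, a50, a51, a52, a53, a54, a57, a60, a61, a62, a63, a64, a65, a70, a71, a72, a73, a74, a75, a76, x00, x01, x10, x11, x12, x20, x21, x22, x23, x30, x31, x32, x33, x34, x36, x40, x41, x42, x43, x44, x45, x50, x51, x52, x53, x54, x55, x56, x60, x61, x62, x63, x64, x65, x66, x67, x70, x71, x72, x73, x74, x75, x76, x77, mul_zero, zero_mul, add_zero, zero_add] at E56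
  have E67 := key 6 7
  simp only [Matrix.mul_apply, Fin.sum_univ_eight, a02, a03, a04, a05, a06, a07, a10, a13, a14, a15, a16, a17, a20, a21, a24, a25, a26, a27, a30, a31, a32, a35, a37, a40, a41, a42, a43, a46, a47, a50, a51, a52, a53, a54, a57, a60, a61, a62, a63, a64, a65, a70, a71, a72, a73, a74, a75, a76, x00, x01, x10, x11, x12, x20, x21, x22, x23, x30, x31, x32, x33, x34, x36, x40, x41, x42, x43, x44, x45, x50, x51, x52, x53, x54, x55, x56, x60, x61, x62, x63, x64, x65, x66, x67, x70, x71, x72, x73, x74, x75, x76, x77, mul_zero, zero_mul, add_zero, zero_add] at E67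
  have h := core (A 0 0) (A 1 1) (A 2 2) (A 3 3) (A 4 4) (A 5 5) (A 6 6) (A 7 7) (A 0 1) (A 1 2) (A 2 3) (A 3 4) (A 3 6) (A 4 5) (A 5 6) (A 6 7)
    (hnz 0 1 (by decide)) (hnz 1 2 (by decide)) (hnz 2 3 (by decide)) (hnz 3 6 (by decide))
    (hnz 5 6 (by decide)) (hnz 6 7 (by decide))
    (X 0 2) (X 0 3) (X 0 4) (X 0 5) (X 0 6) (X 0 7) (X 1 3) (X 1 4) (X 1 5) (X 1 6) (X 1 7) (X 2 4) (X 2 5) (X 2 6) (X 2 7) (X 3 5) (X 3 7) (X 4 6) (X 4 7) (X 5 7)
    (by linear_combination E01)
    (by linear_combination E02)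
    (by linear_combination E03)
    (by linear_combination E04)
    (by linear_combination E05)
    (by linear_combination E06)
    (by linear_combination E07)
    (by linear_combination E12)
    (by linear_combination E13)
    (by linear_combination E14)
    (by linear_combination E15)
    (by linear_combination E16)
    (by linear_combination E17)
    (by linear_combination E23)
    (by linear_combination E24)
    (by linear_combination E25)
    (by linear_combination E26)
    (by linear_combination E27)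
    (by linear_combination E34)
    (by linear_combination E35)
    (by linear_combination E36)
    (by linear_combination E37)
    (by linear_combination E45)
    (by linear_combination E46)
    (by linear_combination E56)
    (by linear_combination E67)
  obtain ⟨h02, h03, h04, h05, h06, h07, h13, h14, h15, h16, h17, h24, h25, h26, h27, h35, h37, h46, h47, h57⟩ := h
  ext i j
  fin_cases i <;> fin_cases j <;> simp only [Fin.zero_eta, Fin.mk_one, Fin.reduceFinMk, Matrix.zero_apply, x00, x01, x10, x11, x12, x20, x21, x22, x23, x30, x31, x32, x33, x34, x36, x40, x41, x42, x43, x44, x45, x50, x51, x52, x53, x54, x55, x56, x60, x61, x62, x63, x64, x65, x66, x67, x70, x71, x72, x73, x74, x75, x76, x77, h02, h03, h04, h05, h06, h07, h13, h14, h15, h16, h17, h24, h25, h26, h27, h35, h37, h46, h47, h57]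

end Pool.Agent.Lib.MP_3aeeeb_co
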